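import Mathlib

/-!
A Hausdorff space that is strategically `k`-Menger but not `k`-Rothberger.

The space is the unit interval with the topology in which a set `O` is open iff every point of `O`
has a usual neighbourhood `V` with `V \ O` countable. Its compact sets are the finite ones.
-/

open TopologicalSpace Set Topology

namespace Pool.Agent.Results.MP_c24ba3_gt.StrategicMengerNotRothberger

section Defs

variable (X : Type) [TopologicalSpace X]

/-- `k`-covers: families of open sets covering the space such that every compact set is contained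
in some member. -/
def IsKCover (U : Set (Set X)) : Prop :=
  (∀ u ∈ U, IsOpen u) ∧ ⋃₀ U = univ ∧ ∀ K : Set X, IsCompact K → ∃ u ∈ U, K ⊆ u

/-- `k`-Menger spaces. -/
def KMenger : Prop :=
  ∀ C : ℕ → Set (Set X), (∀ n, IsKCover X (C n)) →
    ∃ F : ℕ → Set (Set X), (∀ n, (F n).Finite ∧ F n ⊆ C n) ∧ IsKCover X (⋃ n, F n)

/-- `k`-Rothberger spaces. -/
def KRothberger : Prop :=
  ∀ C : ℕ → Set (Set X), (∀ n, IsKCover X (C n)) →
    ∃ U : ℕ → Set X, (∀ n, U n ∈ C n) ∧ IsKCover X (range U)

/-- Strategically `k`-Menger spaces: the second player has a winning strategy in the finite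
selection game on `k`-covers. A strategy maps the list of all moves of the first player so far to a
reply. -/
def StrategicallyKMenger : Prop :=
  ∃ σ : List (Set (Set X)) → Set (Set X),
    ∀ C : ℕ → Set (Set X), (∀ n, IsKCover X (C n)) →
      (∀ n, (σ ((List.range (n + 1)).map C)).Finite ∧ σ ((List.range (n + 1)).map C) ⊆ C n) ∧
        IsKCover X (⋃ n, σ ((List.range (n + 1)).map C))

/-- Strategically `k`-Rothberger spaces: the second player has a winning strategy in the single
selection game on `k`-covers. -/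
def StrategicallyKRothberger : Prop :=
  ∃ σ : List (Set (Set X)) → Set X,
    ∀ C : ℕ → Set (Set X), (∀ n, IsKCover X (C n)) →
      (∀ n, σ ((List.range (n + 1)).map C) ∈ C n) ∧
        IsKCover X (range fun n => σ ((List.range (n + 1)).map C))

variable {X}

theorem kMenger_of_strategically (h : StrategicallyKMenger X) : KMenger X := by
  obtain ⟨σ, hσ⟩ := h
  intro C hC
  exact ⟨fun n => σ ((List.range (n + 1)).map C), (hσ C hC).1, (hσ C hC).2⟩

theorem kRothberger_of_strategically (h : StrategicallyKRothberger X) : KRothberger X := by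
  obtain ⟨σ, hσ⟩ := h
  intro C hC
  exact ⟨fun n => σ ((List.range (n + 1)).map C), (hσ C hC).1, (hσ C hC).2⟩

end Defs

section CoCountable

variable (Y : Type) [TopologicalSpace Y]

/-- The co-countable refinement of the topology of `Y`: `O` is open iff each of its points has a
neighbourhood in the old topology that is contained in `O` up to a countable set. -/
abbrev refTop : TopologicalSpace Y where
  IsOpen O := ∀ x ∈ O, ∃ V : Set Y, IsOpen V ∧ x ∈ V ∧ (V \ O).Countable
  isOpen_univ := fun x _ => ⟨univ, isOpen_univ, trivial, by simp⟩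
  isOpen_inter := by
    intro O P hO hP x hx
    obtain ⟨V, hV, hxV, hVc⟩ := hO x hx.1
    obtain ⟨W, hW, hxW, hWc⟩ := hP x hx.2
    refine ⟨V ∩ W, hV.inter hW, ⟨hxV, hxW⟩, (hVc.union hWc).mono ?_⟩
    rintro y ⟨⟨hyV, hyW⟩, hy⟩
    by_cases h : y ∈ O
    · exact Or.inr ⟨hyW, fun h' => hy ⟨h, h'⟩⟩
    · exact Or.inl ⟨hyV, h⟩
  isOpen_sUnion := by
    intro S hS x hx
    obtain ⟨O, hOS, hxO⟩ := hx
    obtain ⟨V, hV, hxV, hVc⟩ := hS O hOS x hxO
    exact ⟨V, hV, hxV, hVc.mono (sdiff_subset_sdiff_right (subset_sUnion_of_mem hOS))⟩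

variable {Y}

theorem ref_isOpen_iff {O : Set Y} :
    IsOpen[refTop Y] O ↔ ∀ x ∈ O, ∃ V : Set Y, IsOpen V ∧ x ∈ V ∧ (V \ O).Countable := Iff.rfl

theorem ref_isOpen_of_isOpen {O : Set Y} (h : IsOpen O) : IsOpen[refTop Y] O :=
  fun _ hx => ⟨O, h, hx, by simp⟩

theorem ref_isOpen_compl_countable {A : Set Y} (h : A.Countable) : IsOpen[refTop Y] Aᶜ :=
  fun _ _ => ⟨univ, isOpen_univ, trivial, h.mono (by
    rintro y ⟨-, hy⟩
    by_contra hA
    exact hy hA)⟩

theorem ref_t2 [T2Space Y] : @T2Space Y (refTop Y) := by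
  refine @T2Space.mk Y (refTop Y) (fun x y hxy => ?_)
  obtain ⟨U, V, hU, hV, hxU, hyV, hUV⟩ := t2_separation hxy
  exact ⟨U, V, ref_isOpen_of_isOpen hU, ref_isOpen_of_isOpen hV, hxU, hyV, hUV⟩

/-- Compact sets of the refinement are finite. -/
theorem ref_compact_finite {K : Set Y} (hK : @IsCompact Y (refTop Y) K) : K.Finite := by
  by_contra hinf
  obtain ⟨D, hDK, hDinf, hDc⟩ : ∃ D ⊆ K, D.Infinite ∧ D.Countable := by
    have hinf' : K.Infinite := hinf
    refine ⟨range (fun n => (hinf'.natEmbedding K n : Y)), ?_, ?_, countable_range _⟩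
    · rintro _ ⟨n, rfl⟩
      exact (hinf'.natEmbedding K n).2
    · apply infinite_range_of_injective
      intro m n h
      exact (hinf'.natEmbedding K).injective (Subtype.ext h)
  obtain ⟨t, ht⟩ := @IsCompact.elim_finite_subcover Y (refTop Y) K Y hK
    (fun d : Y => (D \ {d})ᶜ)
    (fun d => ref_isOpen_compl_countable (hDc.mono sdiff_subset)) (by
      intro x _
      rw [mem_iUnion]
      exact ⟨x, fun h => h.2 rfl⟩)
  apply hDinf
  refine t.finite_toSet.subset ?_
  intro d hd
  have := ht (hDK hd)
  simp only [mem_iUnion] at this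
  obtain ⟨i, hi, hdi⟩ := this
  have : d = i := by
    by_contra hne
    exact hdi ⟨hd, hne⟩
  rw [this]
  exact hi

theorem isKCover_ref_iff {U : Set (Set Y)} :
    @IsKCover Y (refTop Y) U ↔
      (∀ u ∈ U, IsOpen[refTop Y] u) ∧ ∀ F : Set Y, F.Finite → ∃ u ∈ U, F ⊆ u := by
  constructor
  · rintro ⟨h1, -, h3⟩
    exact ⟨h1, fun F hF => h3 F (@Set.Finite.isCompact Y (refTop Y) F hF)⟩
  · rintro ⟨h1, h2⟩
    refine ⟨h1, ?_, fun K hK => h2 K (ref_compact_finite hK)⟩
    refine eq_univ_of_forall fun x => ?_
    obtain ⟨u, hu, hxu⟩ := h2 {x} (finite_singleton x)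
    exact ⟨u, hu, hxu rfl⟩

/-- The largest open set of `Y` that is contained in `O` up to a countable set. -/
def hull [SecondCountableTopology Y] (O : Set Y) : Set Y :=
  ⋃₀ {B | B ∈ countableBasis Y ∧ (B \ O).Countable}

variable [SecondCountableTopology Y]

theorem hull_open (O : Set Y) : IsOpen (hull O) :=
  isOpen_sUnion fun _ hB => isOpen_of_mem_countableBasis hB.1

theorem subset_hull {O : Set Y} (hO : IsOpen[refTop Y] O) : O ⊆ hull O := by
  intro x hx
  obtain ⟨V, hV, hxV, hVc⟩ := hO x hx
  obtain ⟨B, hB, hxB, hBV⟩ := (isBasis_countableBasis Y).exists_subset_of_mem_open hxV hV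
  exact ⟨B, ⟨hB, hVc.mono (sdiff_subset_sdiff_left hBV)⟩, hxB⟩

theorem hull_sdiff (O : Set Y) : (hull O \ O).Countable := by
  have : hull O \ O = ⋃ B ∈ {B | B ∈ countableBasis Y ∧ (B \ O).Countable}, (B \ O) := by
    ext x
    simp only [hull, mem_sdiff, mem_sUnion, mem_iUnion, exists_prop]
    constructor
    · rintro ⟨⟨B, hB, hxB⟩, hx⟩
      exact ⟨B, hB, hxB, hx⟩
    · rintro ⟨B, hB, hxB, hx⟩
      exact ⟨⟨B, hB, hxB⟩, hx⟩
  rw [this]
  exact Countable.biUnion ((countable_countableBasis Y).mono fun B hB => hB.1) fun B hB => hB.2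

variable [CompactSpace Y]

/-- The finite reply. -/
theorem exists_reply {C : Set (Set Y)} (hC : @IsKCover Y (refTop Y) C) (n : ℕ)
    (a : Finset Y) :
    ∃ F : Finset (Set Y), (F : Set (Set Y)) ⊆ C ∧ (∀ O ∈ F, (a : Set Y) ⊆ O) ∧
      ∀ b : Fin n → Y, ∃ O ∈ F, ∀ i, b i ∈ hull O := by
  classical
  rw [isKCover_ref_iff] at hC
  have h1 : ∀ b : Fin n → Y, ∃ O ∈ C, (a : Set Y) ∪ range b ⊆ O := fun b =>
    hC.2 _ (a.finite_toSet.union (finite_range b))
  choose O hO hab using h1
  obtain ⟨t, -, ht⟩ := (isCompact_univ (X := Fin n → Y)).elim_nhds_subcover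
    (fun b => {b' : Fin n → Y | ∀ i, b' i ∈ hull (O b)}) (by
      intro b _
      have : IsOpen {b' : Fin n → Y | ∀ i, b' i ∈ hull (O b)} := by
        rw [ofPred_forall]
        exact isOpen_iInter_of_finite fun i => (hull_open _).preimage (continuous_apply i)
      apply this.mem_nhds
      intro i
      exact subset_hull (hC.1 _ (hO b)) (hab b (Or.inr ⟨i, rfl⟩)))
  refine ⟨t.image O, ?_, ?_, ?_⟩
  · intro u hu
    rw [Finset.mem_coe, Finset.mem_image] at hu
    obtain ⟨b, -, rfl⟩ := hu
    exact hO b
  · intro u hu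
    rw [Finset.mem_image] at hu
    obtain ⟨b, -, rfl⟩ := hu
    exact subset_union_left.trans (hab b)
  · intro b
    have := ht (mem_univ b)
    simp only [mem_iUnion] at this
    obtain ⟨i, hi, hbi⟩ := this
    exact ⟨O i, Finset.mem_image.2 ⟨i, hi, rfl⟩, hbi⟩

/-! ### The strategy -/

open Classical in
/-- The finite reply, as a function. -/
noncomputable def reply (C : Set (Set Y)) (n : ℕ) (a : Finset Y) : Finset (Set Y) :=
  if h : @IsKCover Y (refTop Y) C then (exists_reply h n a).choose else ∅

theorem reply_spec {C : Set (Set Y)} (hC : @IsKCover Y (refTop Y) C) (n : ℕ)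
    (a : Finset Y) :
    (reply C n a : Set (Set Y)) ⊆ C ∧ (∀ O ∈ reply C n a, (a : Set Y) ⊆ O) ∧
      ∀ b : Fin n → Y, ∃ O ∈ reply C n a, ∀ i, b i ∈ hull O := by
  unfold reply
  rw [dif_pos hC]
  exact (exists_reply hC n a).choose_spec

omit [CompactSpace Y] in
/-- There is an enumeration of the countable set `hull O \ O`. -/
theorem exists_enum [Nonempty Y] (O : Set Y) : ∃ f : ℕ → Y, hull O \ O ⊆ range f := by
  rcases (hull O \ O).eq_empty_or_nonempty with h | h
  · exact ⟨fun _ => Classical.arbitrary Y, by rw [h]; exact empty_subset _⟩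
  · obtain ⟨f, hf⟩ := (hull_sdiff O).exists_eq_range h
    exact ⟨f, hf.subset⟩

/-- An enumeration of (a superset of) `hull O \ O`. -/
noncomputable def enum [Nonempty Y] (O : Set Y) : ℕ → Y := (exists_enum O).choose

theorem enum_spec [Nonempty Y] (O : Set Y) : hull O \ O ⊆ range (enum O) :=
  (exists_enum O).choose_spec

open Classical in
/-- The finite set of points to be taken care of, when the finite family `P` of open sets has been
chosen so far. -/
noncomputable def pts [Nonempty Y] (n : ℕ) (P : Finset (Set Y)) : Finset Y :=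
  P.biUnion fun O => (Finset.range n).image (enum O)

open Classical in
/-- The state (round number, family of the open sets chosen so far) after a finite sequence of
moves of the first player. -/
noncomputable def state [Nonempty Y] (l : List (Set (Set Y))) : ℕ × Finset (Set Y) :=
  l.foldl (fun st C => (st.1 + 1, st.2 ∪ reply C st.1 (pts st.1 st.2))) (0, ∅)

/-- The strategy. -/
noncomputable def strat [Nonempty Y] (l : List (Set (Set Y))) : Finset (Set Y) :=
  reply (l.getLastD ∅) (state l.dropLast).1 (pts (state l.dropLast).1 (state l.dropLast).2)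

open Classical in
theorem state_append [Nonempty Y] (l : List (Set (Set Y))) (C : Set (Set Y)) :
    state (l ++ [C]) =
      ((state l).1 + 1, (state l).2 ∪ reply C (state l).1 (pts (state l).1 (state l).2)) := by
  unfold state
  rw [List.foldl_append]
  simp only [List.foldl_cons, List.foldl_nil]

theorem state_fst [Nonempty Y] (C : ℕ → Set (Set Y)) (n : ℕ) :
    (state ((List.range n).map C)).1 = n := by
  classical
  induction n with
  | zero => rfl
  | succ n ih => rw [List.range_succ, List.map_append, List.map_singleton, state_append, ih]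

theorem strat_eq [Nonempty Y] (C : ℕ → Set (Set Y)) (n : ℕ) :
    strat ((List.range (n + 1)).map C) =
      reply (C n) n (pts n (state ((List.range n).map C)).2) := by
  unfold strat
  rw [List.range_succ, List.map_append, List.map_singleton]
  simp [state_fst]

theorem state_snd [Nonempty Y] (C : ℕ → Set (Set Y)) (n : ℕ) (O : Set Y) :
    O ∈ (state ((List.range n).map C)).2 ↔
      ∃ m < n, O ∈ strat ((List.range (m + 1)).map C) := by
  classical
  induction n with
  | zero =>
    simp [state]
  | succ n ih =>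
    rw [List.range_succ, List.map_append, List.map_singleton, state_append, Finset.mem_union, ih,
      state_fst, ← strat_eq]
    constructor
    · rintro (⟨m, hm, h⟩ | h)
      · exact ⟨m, by omega, h⟩
      · exact ⟨n, by omega, h⟩
    · rintro ⟨m, hm, h⟩
      rcases Nat.lt_succ_iff_lt_or_eq.1 hm with h' | rfl
      · exact Or.inl ⟨m, h', h⟩
      · exact Or.inr h

/-- The refinement of a compact second-countable space is strategically `k`-Menger. -/
theorem strategically_ref [Nonempty Y] : @StrategicallyKMenger Y (refTop Y) := by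
  classical
  refine ⟨fun l => (strat l : Set (Set Y)), ?_⟩
  intro C hC
  have hrep : ∀ n, _ := fun n => reply_spec (hC n) n (pts n (state ((List.range n).map C)).2)
  refine ⟨fun n => ⟨Finset.finite_toSet _, ?_⟩, ?_⟩
  · show (strat ((List.range (n + 1)).map C) : Set (Set Y)) ⊆ C n
    rw [strat_eq]
    exact (hrep n).1
  rw [isKCover_ref_iff]
  refine ⟨?_, ?_⟩
  · intro u hu
    rw [mem_iUnion] at hu
    obtain ⟨n, hn⟩ := hu
    replace hn : u ∈ strat ((List.range (n + 1)).map C) := hn
    rw [strat_eq] at hn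
    exact (hC n).1 u ((hrep n).1 hn)
  intro b hb
  -- the exceptional points
  let E : Set Y := ⋃ n, ⋃ O ∈ strat ((List.range (n + 1)).map C), range (enum O)
  -- a round after which all exceptional points of `b` are taken care of
  have hex : ∀ x ∈ b, ∃ N, ∀ n ≥ N, x ∈ E → x ∈ pts n (state ((List.range n).map C)).2 := by
    intro x _
    by_cases hx : x ∈ E
    · simp only [E, mem_iUnion] at hx
      obtain ⟨m, O, hO, k, rfl⟩ := hx
      refine ⟨max (m + 1) (k + 1), fun n hn _ => ?_⟩
      have h1 : m + 1 ≤ n := le_trans (le_max_left _ _) hn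
      have h2 : k + 1 ≤ n := le_trans (le_max_right _ _) hn
      unfold pts
      rw [Finset.mem_biUnion]
      refine ⟨O, (state_snd C n O).2 ⟨m, by omega, hO⟩, ?_⟩
      rw [Finset.mem_image]
      exact ⟨k, Finset.mem_range.2 (by omega), rfl⟩
    · exact ⟨0, fun n _ h => (hx h).elim⟩
  choose! N hN using hex
  lift b to Finset Y using hb
  -- choose a round that is late enough
  let n : ℕ := max b.card (b.sup N)
  let f : Fin n → Y := fun i => b.toList.getD i (Classical.arbitrary Y)
  have hf : ∀ x ∈ b, ∃ i, f i = x := by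
    intro x hx
    obtain ⟨i, hi, hix⟩ := List.getElem_of_mem (Finset.mem_toList.2 hx)
    have hi' : i < n := lt_of_lt_of_le (by rwa [Finset.length_toList] at hi) (le_max_left _ _)
    refine ⟨⟨i, hi'⟩, ?_⟩
    show b.toList.getD i (Classical.arbitrary Y) = x
    rw [List.getD_eq_getElem _ _ hi, hix]
  obtain ⟨-, h2, h3⟩ := hrep n
  obtain ⟨O, hO, hfO⟩ := h3 f
  have hOs : O ∈ strat ((List.range (n + 1)).map C) := by
    rw [strat_eq]
    exact hO
  refine ⟨O, mem_iUnion.2 ⟨n, hOs⟩, ?_⟩
  intro x hx
  by_cases hxE : x ∈ E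
  · exact h2 O hO (hN x hx n (le_trans (Finset.le_sup (f := N) hx) (le_max_right _ _)) hxE)
  · obtain ⟨i, rfl⟩ := hf x hx
    by_contra hxO
    apply hxE
    simp only [E, mem_iUnion]
    exact ⟨n, O, hOs, enum_spec O ⟨hfO i, hxO⟩⟩

end CoCountable

/-! ### The unit interval -/

section Interval

open MeasureTheory

/-- The refinement of the unit interval is not `k`-Rothberger. -/
theorem not_kRothberger : ¬ @KRothberger unitInterval (refTop unitInterval) := by
  intro h
  obtain ⟨δ, hδpos, hδ⟩ := ENNReal.exists_pos_sum_of_countable' (ε := 1) one_ne_zero ℕ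
  obtain ⟨U, hU, hcov⟩ := h (fun n => {O | IsOpen O ∧ volume O < δ n}) (by
    intro n
    rw [isKCover_ref_iff]
    refine ⟨fun u hu => ref_isOpen_of_isOpen hu.1, ?_⟩
    intro F hF
    have h0 : volume F = 0 := hF.measure_zero _
    obtain ⟨O, hFO, hO, hlt⟩ := F.exists_isOpen_lt_of_lt (δ n) (by rw [h0]; exact hδpos n)
    exact ⟨O, ⟨hO, hlt⟩, hFO⟩)
  have h1 : volume (univ : Set unitInterval) ≤ ∑' n, δ n := by
    rw [← hcov.2.1, sUnion_range]
    refine (measure_iUnion_le U).trans ?_
    exact ENNReal.tsum_le_tsum fun n => (hU n).2.le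
  rw [measure_univ] at h1
  exact absurd (lt_of_le_of_lt h1 hδ) (lt_irrefl _)

end Interval

/-- There is a Hausdorff space that is strategically `k`-Menger (hence `k`-Menger) but not
`k`-Rothberger (hence not strategically `k`-Rothberger). -/
theorem result : ∃ (X : Type) (_ : TopologicalSpace X), T2Space X ∧
    StrategicallyKMenger X ∧ KMenger X ∧ ¬ KRothberger X ∧ ¬ StrategicallyKRothberger X :=
  ⟨unitInterval, refTop unitInterval, ref_t2, strategically_ref,
    @kMenger_of_strategically unitInterval (refTop unitInterval) strategically_ref,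
    not_kRothberger,
    fun h => not_kRothberger (@kRothberger_of_strategically unitInterval (refTop unitInterval) h)⟩

end Pool.Agent.Results.MP_c24ba3_gt.StrategicMengerNotRothberger
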